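import Pool.Agent.Z700.Defs

/-!
Job Z700-BIL2A: weights and coincidences modulo 7.
-/

set_option autoImplicit false

namespace Pool.Agent.Z994

open Finset Pool.Agent.Z700
open scoped Matrix

/-! ### modulo 3 -/

theorem dot3 (v w : V3) : v ⬝ᵥ w = v 0 * w 0 + v 1 * w 1 + v 2 * w 2 := by
  simp [dotProduct, Fin.sum_univ_three]

theorem chi3_one {x u : ℤ} (h : x = 1 + 3 * u) : chi3 x = 1 := by
  unfold chi3
  rw [if_pos (by omega)]

theorem chi3_neg {x u : ℤ} (h : x = -1 + 3 * u) : chi3 x = -1 := by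
  unfold chi3
  rw [if_neg (by omega), if_pos (by omega)]

theorem sign_of {x : ℤ} (h : ¬ x % 3 = 0) : ∃ s u : ℤ, (s = 1 ∨ s = -1) ∧ x = s + 3 * u ∧ chi3 x = s := by
  rcases (by omega : x % 3 = 1 ∨ x % 3 = 2) with h1 | h1
  · exact ⟨1, x / 3, Or.inl rfl, by omega, chi3_one (u := x / 3) (by omega)⟩
  · exact ⟨-1, x / 3 + 1, Or.inr rfl, by omega, chi3_neg (u := x / 3 + 1) (by omega)⟩

theorem unit3 {a b c n : ℤ} (hn : n % 3 = 1) (h : a * a + b * b + c * c = 3 * n) :
    ¬ a % 3 = 0 ∧ ¬ b % 3 = 0 ∧ ¬ c % 3 = 0 := by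
  have key : ∀ x : ℤ, (x % 3 = 0 ∧ x * x % 9 = 0) ∨ (¬ x % 3 = 0 ∧ x * x % 3 = 1) := by
    intro x
    rcases (by omega : x % 3 = 0 ∨ x % 3 = 1 ∨ x % 3 = 2) with h1 | h1 | h1
    · left
      obtain ⟨k, hk⟩ : ∃ k, x = 3 * k := ⟨x / 3, by omega⟩
      refine ⟨h1, ?_⟩
      rw [hk]
      have : 3 * k * (3 * k) = 9 * (k * k) := by ring
      omega
    · right
      obtain ⟨k, hk⟩ : ∃ k, x = 3 * k + 1 := ⟨x / 3, by omega⟩
      refine ⟨by omega, ?_⟩
      rw [hk]
      have : (3 * k + 1) * (3 * k + 1) = 3 * (3 * (k * k) + 2 * k) + 1 := by ring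
      omega
    · right
      obtain ⟨k, hk⟩ : ∃ k, x = 3 * k + 2 := ⟨x / 3, by omega⟩
      refine ⟨by omega, ?_⟩
      rw [hk]
      have : (3 * k + 2) * (3 * k + 2) = 3 * (3 * (k * k) + 4 * k + 1) + 1 := by ring
      omega
  have ha := key a
  have hb := key b
  have hc := key c
  omega

theorem weight {n1 n2 b : ℤ} (h1 : n1 % 3 = 1) (h2 : n2 % 3 = 1) {v w : V3}
    (hv : v ⬝ᵥ v = 3 * n1) (hw : w ⬝ᵥ w = 3 * n2) (hb : v ⬝ᵥ w = b) :
    chv v * chv w = wt b := by
  rw [dot3] at hv hw hb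
  obtain ⟨a0, a1, a2⟩ := unit3 h1 hv
  obtain ⟨b0, b1, b2⟩ := unit3 h2 hw
  obtain ⟨s0, u0, hs0, e0, c0⟩ := sign_of a0
  obtain ⟨s1, u1, hs1, e1, c1⟩ := sign_of a1
  obtain ⟨s2, u2, hs2, e2, c2⟩ := sign_of a2
  obtain ⟨t0, x0, ht0, f0, d0⟩ := sign_of b0
  obtain ⟨t1, x1, ht1, f1, d1⟩ := sign_of b1
  obtain ⟨t2, x2, ht2, f2, d2⟩ := sign_of b2
  unfold chv
  rw [c0, c1, c2, d0, d1, d2]
  rw [e0, e1, e2] at hv hb
  rw [f0, f1, f2] at hw hb
  have ss : ∀ s : ℤ, (s = 1 ∨ s = -1) → s * s = 1 := by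
    rintro s (rfl | rfl) <;> norm_num
  have g1 : 3 * (1 + 2 * (s0 * u0 + s1 * u1 + s2 * u2) + 3 * (u0 * u0 + u1 * u1 + u2 * u2)) =
      3 * n1 := by
    rw [← hv]
    linear_combination -(ss s0 hs0) - (ss s1 hs1) - (ss s2 hs2)
  have g2 : 3 * (1 + 2 * (t0 * x0 + t1 * x1 + t2 * x2) + 3 * (x0 * x0 + x1 * x1 + x2 * x2)) =
      3 * n2 := by
    rw [← hw]
    linear_combination -(ss t0 ht0) - (ss t1 ht1) - (ss t2 ht2)
  have g3 : b = (s0 * t0 + s1 * t1 + s2 * t2) +
      3 * ((s0 * x0 + s1 * x1 + s2 * x2) + (t0 * u0 + t1 * u1 + t2 * u2)) +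
      9 * (u0 * x0 + u1 * x1 + u2 * x2) := by
    rw [← hb]; ring
  have k1 : (s0 * u0 + s1 * u1 + s2 * u2) % 3 = 0 := by omega
  have k2 : (t0 * x0 + t1 * x1 + t2 * x2) % 3 = 0 := by omega
  obtain ⟨A, hA⟩ : ∃ A, A = u0 * x0 + u1 * x1 + u2 * x2 := ⟨_, rfl⟩
  rw [← hA] at g3
  clear hv hw hb g1 g2 c0 c1 c2 d0 d1 d2 e0 e1 e2 f0 f1 f2 a0 a1 a2 b0 b1 b2 hA
  have w1 : ∀ b : ℤ, b % 3 = 1 → wt b = -1 := by
    intro b h
    unfold wt chi3
    rw [if_neg (by omega), if_pos h]
  have w2 : ∀ b : ℤ, b % 3 = 2 → wt b = 1 := by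
    intro b h
    unfold wt chi3
    rw [if_neg (by omega), if_neg (by omega), if_pos h]
    norm_num
  have w3 : ∀ b : ℤ, b % 9 = 3 → wt b = 1 := by
    intro b h
    unfold wt chi3
    rw [if_pos (by omega), if_pos (by omega)]
  have w4 : ∀ b : ℤ, b % 9 = 6 → wt b = -1 := by
    intro b h
    unfold wt chi3
    rw [if_pos (by omega), if_neg (by omega), if_pos (by omega)]
  rcases hs0 with rfl | rfl <;> rcases hs1 with rfl | rfl <;> rcases hs2 with rfl | rfl <;>
  rcases ht0 with rfl | rfl <;> rcases ht1 with rfl | rfl <;> rcases ht2 with rfl | rfl <;>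
  first
    | (rw [w1 b (by omega)]; norm_num; done)
    | (rw [w2 b (by omega)]; norm_num; done)
    | (rw [w3 b (by omega)]; norm_num; done)
    | (rw [w4 b (by omega)]; norm_num; done)

/-! ### modulo 7 -/

abbrev K := ZMod 7

instance fact7 : Fact (Nat.Prime 7) := ⟨by norm_num⟩

theorem two_ne : (2 : K) ≠ 0 := by decide

/-- `v × n = β n` over `ZMod 7` -/
def L (v n : Fin 3 → K) (β : K) : Prop :=
  v 1 * n 2 - v 2 * n 1 = β * n 0 ∧ v 2 * n 0 - v 0 * n 2 = β * n 1 ∧
  v 0 * n 1 - v 1 * n 0 = β * n 2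

theorem ne_exists {n : Fin 3 → K} (h : n ≠ 0) : n 0 ≠ 0 ∨ n 1 ≠ 0 ∨ n 2 ≠ 0 := by
  by_contra hcon
  push Not at hcon
  apply h
  ext i
  fin_cases i
  · exact hcon.1
  · exact hcon.2.1
  · exact hcon.2.2

/-- parallel vectors -/
theorem par {u y : Fin 3 → K} (hu : u ≠ 0) (h0 : u 1 * y 2 = u 2 * y 1) (h1 : u 2 * y 0 = u 0 * y 2)
    (h2 : u 0 * y 1 = u 1 * y 0) : ∃ c : K, ∀ i, y i = c * u i := by
  rcases ne_exists hu with h | h | h
  · refine ⟨y 0 / u 0, fun i => ?_⟩
    fin_cases i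
    · simp only [Fin.zero_eta]; field_simp
    · simp only [Fin.mk_one]; field_simp; linear_combination h2
    · simp only [Fin.reduceFinMk]; field_simp; linear_combination -h1
  · refine ⟨y 1 / u 1, fun i => ?_⟩
    fin_cases i
    · simp only [Fin.zero_eta]; field_simp; linear_combination -h2
    · simp only [Fin.mk_one]; field_simp
    · simp only [Fin.reduceFinMk]; field_simp; linear_combination h0
  · refine ⟨y 2 / u 2, fun i => ?_⟩
    fin_cases i
    · simp only [Fin.zero_eta]; field_simp; linear_combination h1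
    · simp only [Fin.mk_one]; field_simp; linear_combination -h0
    · simp only [Fin.reduceFinMk]; field_simp

/-- a common isotropic line -/
def Co (v w : Fin 3 → K) (β1 β2 : K) : Prop := ∃ n : Fin 3 → K, n ≠ 0 ∧ L v n β1 ∧ L w n β2

theorem co_dot {v w : Fin 3 → K} {β1 β2 : K} (h1 : β1 ≠ 0) (h : Co v w β1 β2) :
    v 0 * w 0 + v 1 * w 1 + v 2 * w 2 = -(β1 * β2) := by
  obtain ⟨n, hn, ⟨a0, a1, a2⟩, b0, b1, b2⟩ := h
  have hvn : v 0 * n 0 + v 1 * n 1 + v 2 * n 2 = 0 := by
    have : β1 * (v 0 * n 0 + v 1 * n 1 + v 2 * n 2) = 0 := by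
      linear_combination -(v 0) * a0 - v 1 * a1 - v 2 * a2
    exact (mul_eq_zero.mp this).resolve_left h1
  have key : ∀ i, (v 0 * w 0 + v 1 * w 1 + v 2 * w 2 + β1 * β2) * n i = 0 := by
    intro i
    fin_cases i
    · simp only [Fin.zero_eta]
      linear_combination w 0 * hvn - β2 * a0 - v 1 * b2 + v 2 * b1
    · simp only [Fin.mk_one]
      linear_combination w 1 * hvn - β2 * a1 - v 2 * b0 + v 0 * b2
    · simp only [Fin.reduceFinMk]
      linear_combination w 2 * hvn - β2 * a2 - v 0 * b1 + v 1 * b0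
  have : v 0 * w 0 + v 1 * w 1 + v 2 * w 2 + β1 * β2 = 0 := by
    rcases ne_exists hn with h | h | h
    · exact (mul_eq_zero.mp (key 0)).resolve_right h
    · exact (mul_eq_zero.mp (key 1)).resolve_right h
    · exact (mul_eq_zero.mp (key 2)).resolve_right h
  linear_combination this

theorem eig {v : Fin 3 → K} {β : K} (hβ : β ≠ 0) (hv : v 0 * v 0 + v 1 * v 1 + v 2 * v 2 = -β ^ 2) :
    ∃ n : Fin 3 → K, n ≠ 0 ∧ L v n β := by
  have h : v 0 * v 0 + β ^ 2 ≠ 0 ∨ v 1 * v 1 + β ^ 2 ≠ 0 ∨ v 2 * v 2 + β ^ 2 ≠ 0 := by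
    by_contra hcon
    push Not at hcon
    obtain ⟨h0, h1, h2⟩ := hcon
    have : 2 * β ^ 2 = 0 := by linear_combination h0 + h1 + h2 - hv
    rcases mul_eq_zero.mp this with h | h
    · exact two_ne h
    · exact hβ (pow_eq_zero_iff (by norm_num) |>.mp h)
  rcases h with h | h | h
  · refine ⟨![v 0 * v 0 + β ^ 2, v 0 * v 1 + β * v 2, v 0 * v 2 - β * v 1], ?_, ?_, ?_, ?_⟩
    · intro h0
      exact h (congrFun h0 0)
    · simp only [Matrix.cons_val_zero, Matrix.cons_val_one, Matrix.cons_val]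
      linear_combination -β * hv
    · simp only [Matrix.cons_val_zero, Matrix.cons_val_one, Matrix.cons_val]
      ring
    · simp only [Matrix.cons_val_zero, Matrix.cons_val_one, Matrix.cons_val]
      ring
  · refine ⟨![v 1 * v 0 - β * v 2, v 1 * v 1 + β ^ 2, v 1 * v 2 + β * v 0], ?_, ?_, ?_, ?_⟩
    · intro h0
      exact h (congrFun h0 1)
    · simp only [Matrix.cons_val_zero, Matrix.cons_val_one, Matrix.cons_val]
      ring
    · simp only [Matrix.cons_val_zero, Matrix.cons_val_one, Matrix.cons_val]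
      linear_combination -β * hv
    · simp only [Matrix.cons_val_zero, Matrix.cons_val_one, Matrix.cons_val]
      ring
  · refine ⟨![v 2 * v 0 + β * v 1, v 2 * v 1 - β * v 0, v 2 * v 2 + β ^ 2], ?_, ?_, ?_, ?_⟩
    · intro h0
      exact h (congrFun h0 2)
    · simp only [Matrix.cons_val_zero, Matrix.cons_val_one, Matrix.cons_val]
      ring
    · simp only [Matrix.cons_val_zero, Matrix.cons_val_one, Matrix.cons_val]
      ring
    · simp only [Matrix.cons_val_zero, Matrix.cons_val_one, Matrix.cons_val]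
      linear_combination -β * hv

theorem L_smul {v u : Fin 3 → K} {β c : K} (hc : c ≠ 0) {n : Fin 3 → K} (hn : ∀ i, n i = c * u i)
    (h : L v n β) : L v u β := by
  obtain ⟨h0, h1, h2⟩ := h
  rw [hn 0, hn 1, hn 2] at h0 h1 h2
  refine ⟨mul_left_cancel₀ hc ?_, mul_left_cancel₀ hc ?_, mul_left_cancel₀ hc ?_⟩
  · linear_combination h0
  · linear_combination h1
  · linear_combination h2

/-- a common line is the line of `β2 v - β1 w` -/
theorem co_line {v w : Fin 3 → K} {β1 β2 : K} {u : Fin 3 → K}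
    (hu : ∀ i, u i = β2 * v i - β1 * w i) (hu0 : u ≠ 0) (h : Co v w β1 β2) : L v u β1 := by
  obtain ⟨n, hn, a, b⟩ := h
  obtain ⟨a0, a1, a2⟩ := a
  obtain ⟨b0, b1, b2⟩ := b
  obtain ⟨c, hc⟩ := par (u := u) (y := n) hu0
    (by rw [hu 1, hu 2]; linear_combination β2 * a0 - β1 * b0)
    (by rw [hu 0, hu 2]; linear_combination β2 * a1 - β1 * b1)
    (by rw [hu 0, hu 1]; linear_combination β2 * a2 - β1 * b2)
  have hc0 : c ≠ 0 := by
    intro h0
    apply hn
    ext i
    rw [hc i, h0, zero_mul]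
    rfl
  exact L_smul hc0 hc ⟨a0, a1, a2⟩

open Classical in
theorem count7 {v w : Fin 3 → K} {β1 β2 : K} (h1 : β1 ≠ 0) (h2 : β2 ≠ 0)
    (hv : v 0 * v 0 + v 1 * v 1 + v 2 * v 2 = -β1 ^ 2)
    (hw : w 0 * w 0 + w 1 * w 1 + w 2 * w 2 = -β2 ^ 2)
    (hvw : v 0 * w 0 + v 1 * w 1 + v 2 * w 2 = -(β1 * β2)) :
    (if Co v w β1 β2 then 1 else 0 : ℕ) + (if Co v w (-β1) (-β2) then 1 else 0) =
      1 + if ∀ i, β2 * v i = β1 * w i then 1 else 0 := by
  by_cases hu : ∀ i, β2 * v i = β1 * w i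
  · -- parallel
    rw [if_pos hu]
    have hwi : ∀ i, w i = β2 / β1 * v i := by
      intro i
      field_simp
      linear_combination -(hu i)
    have key : ∀ s : K, s ≠ 0 → s ^ 2 = 1 → Co v w (s * β1) (s * β2) := by
      intro s hs hs2
      obtain ⟨n, hn, a0, a1, a2⟩ := eig (v := v) (β := s * β1) (mul_ne_zero hs h1) (by
        rw [hv]
        linear_combination β1 ^ 2 * hs2)
      refine ⟨n, hn, ⟨a0, a1, a2⟩, ?_, ?_, ?_⟩
      · rw [hwi 1, hwi 2]
        field_simp
        linear_combination a0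
      · rw [hwi 0, hwi 2]
        field_simp
        linear_combination a1
      · rw [hwi 0, hwi 1]
        field_simp
        linear_combination a2
    have k1 := key 1 one_ne_zero (by ring)
    have k2 := key (-1) (neg_ne_zero.mpr one_ne_zero) (by ring)
    rw [one_mul, one_mul] at k1
    rw [neg_one_mul, neg_one_mul] at k2
    rw [if_pos k1, if_pos k2]
  · rw [if_neg hu]
    obtain ⟨u, hue⟩ : ∃ u : Fin 3 → K, ∀ i, u i = β2 * v i - β1 * w i :=
      ⟨fun i => β2 * v i - β1 * w i, fun _ => rfl⟩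
    have hu0 : u ≠ 0 := by
      intro h0
      apply hu
      intro i
      have : u i = 0 := by rw [h0]; rfl
      rw [hue i] at this
      linear_combination this
    have huu : u 0 * u 0 + u 1 * u 1 + u 2 * u 2 = 0 := by
      rw [hue 0, hue 1, hue 2]
      linear_combination β2 ^ 2 * hv + β1 ^ 2 * hw - 2 * β1 * β2 * hvw
    have hvu : v 0 * u 0 + v 1 * u 1 + v 2 * u 2 = 0 := by
      rw [hue 0, hue 1, hue 2]
      linear_combination β2 * hv - β1 * hvw
    -- v × u is parallel to u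
    obtain ⟨c, hc⟩ := par (u := u) (y := ![v 1 * u 2 - v 2 * u 1, v 2 * u 0 - v 0 * u 2,
      v 0 * u 1 - v 1 * u 0]) hu0
      (by simp only [Matrix.cons_val_zero, Matrix.cons_val_one, Matrix.cons_val]
          linear_combination v 0 * huu - u 0 * hvu)
      (by simp only [Matrix.cons_val_zero, Matrix.cons_val_one, Matrix.cons_val]
          linear_combination v 1 * huu - u 1 * hvu)
      (by simp only [Matrix.cons_val_zero, Matrix.cons_val_one, Matrix.cons_val]
          linear_combination v 2 * huu - u 2 * hvu)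
    have c0 : v 1 * u 2 - v 2 * u 1 = c * u 0 := hc 0
    have c1 : v 2 * u 0 - v 0 * u 2 = c * u 1 := hc 1
    have c2 : v 0 * u 1 - v 1 * u 0 = c * u 2 := hc 2
    have hcc : c ^ 2 = β1 ^ 2 := by
      have key : ∀ i, (c ^ 2 - β1 ^ 2) * u i = 0 := by
        intro i
        fin_cases i
        · simp only [Fin.zero_eta]
          linear_combination -c * c0 - v 1 * c2 + v 2 * c1 + v 0 * hvu - u 0 * hv
        · simp only [Fin.mk_one]
          linear_combination -c * c1 - v 2 * c0 + v 0 * c2 + v 1 * hvu - u 1 * hv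
        · simp only [Fin.reduceFinMk]
          linear_combination -c * c2 - v 0 * c1 + v 1 * c0 + v 2 * hvu - u 2 * hv
      rcases ne_exists hu0 with h | h | h
      · exact sub_eq_zero.mp ((mul_eq_zero.mp (key 0)).resolve_right h)
      · exact sub_eq_zero.mp ((mul_eq_zero.mp (key 1)).resolve_right h)
      · exact sub_eq_zero.mp ((mul_eq_zero.mp (key 2)).resolve_right h)
    have hcpm : c = β1 ∨ c = -β1 := sq_eq_sq_iff_eq_or_eq_neg.mp hcc
    -- existence
    have ex : ∀ s : K, c = s * β1 → Co v w (s * β1) (s * β2) := by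
      intro s hs
      refine ⟨u, hu0, ?_, ?_⟩
      · rw [← hs]
        exact ⟨c0, c1, c2⟩
      · have e : ∀ i, w i = (β2 * v i - u i) / β1 := by
          intro i
          rw [hue i]
          field_simp
          ring
        refine ⟨?_, ?_, ?_⟩
        · rw [e 1, e 2]
          field_simp
          linear_combination β2 * c0 + β2 * u 0 * hs
        · rw [e 0, e 2]
          field_simp
          linear_combination β2 * c1 + β2 * u 1 * hs
        · rw [e 0, e 1]
          field_simp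
          linear_combination β2 * c2 + β2 * u 2 * hs
    -- uniqueness
    have un : ∀ s : K, s ^ 2 = 1 → Co v w (s * β1) (s * β2) → c = s * β1 := by
      intro s hs h
      have hs0 : s ≠ 0 := by
        intro h0
        rw [h0, zero_pow (by norm_num)] at hs
        exact zero_ne_one hs
      have hl := co_line (u := fun i => s * u i) (fun i => by
        rw [hue i]
        ring) (by
          intro h0
          apply hu0
          ext i
          have : s * u i = 0 := congrFun h0 i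
          exact (mul_eq_zero.mp this).resolve_left hs0) h
      obtain ⟨l0, l1, l2⟩ := hl
      simp only at l0 l1 l2
      have key : ∀ i, (c - s * β1) * u i = 0 := by
        intro i
        fin_cases i
        · simp only [Fin.zero_eta]
          linear_combination -c0 + s * l0 - (v 1 * u 2 - v 2 * u 1 - s * β1 * u 0) * hs
        · simp only [Fin.mk_one]
          linear_combination -c1 + s * l1 - (v 2 * u 0 - v 0 * u 2 - s * β1 * u 1) * hs
        · simp only [Fin.reduceFinMk]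
          linear_combination -c2 + s * l2 - (v 0 * u 1 - v 1 * u 0 - s * β1 * u 2) * hs
      rcases ne_exists hu0 with h | h | h
      · exact sub_eq_zero.mp ((mul_eq_zero.mp (key 0)).resolve_right h)
      · exact sub_eq_zero.mp ((mul_eq_zero.mp (key 1)).resolve_right h)
      · exact sub_eq_zero.mp ((mul_eq_zero.mp (key 2)).resolve_right h)
    have hne : β1 ≠ -β1 := by
      intro h
      have : 2 * β1 = 0 := by linear_combination h
      rcases mul_eq_zero.mp this with h | h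
      · exact two_ne h
      · exact h1 h
    have ex1 := ex 1
    have ex2 := ex (-1)
    have un1 := un 1 (by ring)
    have un2 := un (-1) (by ring)
    rw [one_mul, one_mul] at ex1 un1
    rw [neg_one_mul, neg_one_mul] at ex2 un2
    rcases hcpm with h | h
    · rw [if_pos (ex1 h), if_neg (fun h' => hne (h.symm.trans (un2 h')))]
    · rw [if_pos (ex2 h), if_neg (fun h' => hne ((un1 h').symm.trans h))]

/-! ### the family -/

theorem sq7_sq {p : ℕ} (h : Fam p) : sq7 p ^ 2 = (p : K) := by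
  obtain ⟨-, -, h7⟩ := h
  have e : (p : K) = ((p % 7 : ℕ) : K) := by
    rw [ZMod.natCast_mod]
  unfold sq7
  rcases h7 with h | h | h
  · rw [if_pos h, e, h]; decide
  · rw [if_neg (by omega), if_pos h, e, h]; decide
  · rw [if_neg (by omega), if_neg (by omega), e, h]; decide

theorem be_sq {D : Finset ℕ} (h : ∀ p ∈ D, Fam p) : be D ^ 2 = -(3 * (pr D : K)) := by
  unfold be pr
  rw [mul_pow, ← prod_pow, prod_congr rfl fun p hp => sq7_sq (h p hp)]
  push_cast
  have : (2:K) ^ 2 = -3 := by decide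
  rw [this]
  ring

theorem be_ne {D : Finset ℕ} (h : ∀ p ∈ D, Fam p) : be D ≠ 0 := by
  unfold be
  refine mul_ne_zero two_ne (prod_ne_zero_iff.mpr fun p hp => ?_)
  unfold sq7
  split_ifs <;> decide

theorem pr_mod {D : Finset ℕ} (h : ∀ p ∈ D, Fam p) : (pr D : ℤ) % 3 = 1 := by
  unfold pr
  have : ∀ D : Finset ℕ, (∀ p ∈ D, Fam p) → (∏ p ∈ D, p) % 3 = 1 := by
    intro D
    induction D using Finset.induction_on with
    | empty => intro _; simp
    | insert a s ha ih =>
      intro h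
      rw [prod_insert ha, Nat.mul_mod, ih fun p hp => h p (mem_insert_of_mem hp)]
      have h1 := (h a (mem_insert_self _ _)).2.1
      have h2 : a % 3 = 1 := by omega
      rw [h2]
  have := this D h
  omega

theorem mem_vec {n : ℤ} {v : V3} (h : v ∈ vec n) : v ⬝ᵥ v = n := (mem_filter.mp h).2

theorem neg_vec {n : ℤ} {v : V3} (h : v ∈ vec n) : -v ∈ vec n := by
  unfold vec at h ⊢
  rw [mem_filter, Fintype.mem_piFinset] at h ⊢
  refine ⟨fun i => ?_, ?_⟩
  · have := h.1 i
    rw [mem_Icc] at this ⊢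
    simp only [Pi.neg_apply]
    omega
  · rw [_root_.neg_dotProduct, _root_.dotProduct_neg, neg_neg]
    exact h.2

theorem ln_iff {v : V3} {n : Fin 3 → K} {β : K} : Ln n β v ↔ L (fun i => (v i : K)) n β := Iff.rfl

theorem ln_neg {v : V3} {n : Fin 3 → K} {β : K} : Ln n β (-v) ↔ Ln n (-β) v := by
  unfold Ln
  simp only [Pi.neg_apply, Int.cast_neg]
  constructor
  · rintro ⟨a, b, c⟩
    exact ⟨by linear_combination -a, by linear_combination -b, by linear_combination -c⟩
  · rintro ⟨a, b, c⟩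
    exact ⟨by linear_combination -a, by linear_combination -b, by linear_combination -c⟩

theorem norm7 {D : Finset ℕ} (h : ∀ p ∈ D, Fam p) {v : V3} (hv : v ∈ vec (3 * (pr D : ℤ))) :
    (v 0 : K) * v 0 + (v 1 : K) * v 1 + (v 2 : K) * v 2 = -be D ^ 2 := by
  have h1 := mem_vec hv
  rw [dot3] at h1
  have h2 : ((v 0 * v 0 + v 1 * v 1 + v 2 * v 2 : ℤ) : K) = ((3 * (pr D : ℤ) : ℤ) : K) := by rw [h1]
  push_cast at h2
  rw [h2, be_sq h]
  ring

open Classical in
theorem t_BIL2A : S_BIL2A := by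
  intro P hP D1 h1 D2 h2 b
  have hF1 : ∀ p ∈ D1, Fam p := fun p hp => hP p (h1 hp)
  have hF2 : ∀ p ∈ D2, Fam p := fun p hp => hP p (h2 hp)
  have hb1 := be_ne hF1
  have hb2 := be_ne hF2
  set N1 : ℤ := 3 * (pr D1 : ℤ) with hN1
  set N2 : ℤ := 3 * (pr D2 : ℤ) with hN2
  set β1 := be D1 with hβ1
  set β2 := be D2 with hβ2
  let Cq : K → K → V3 × V3 → Prop := fun a c q =>
    Co (fun i => (q.1 i : K)) (fun i => (q.2 i : K)) a c
  have hDD : DD N1 N2 β1 β2 b = wt b *
      (((vec N1 ×ˢ vec N2).filter fun q => q.1 ⬝ᵥ q.2 = b ∧ Cq β1 β2 q).card : ℤ) := by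
    unfold DD
    have e : ((vec N1 ×ˢ vec N2).filter fun q => q.1 ⬝ᵥ q.2 = b ∧
        ∃ n : Fin 3 → ZMod 7, n ≠ 0 ∧ Ln n β1 q.1 ∧ Ln n β2 q.2) =
        ((vec N1 ×ˢ vec N2).filter fun q => q.1 ⬝ᵥ q.2 = b ∧ Cq β1 β2 q) := by
      refine filter_congr fun q _ => ?_
      exact Iff.rfl
    have e2 : ∀ q ∈ (vec N1 ×ˢ vec N2).filter (fun q => q.1 ⬝ᵥ q.2 = b ∧ Cq β1 β2 q),
        chv q.1 * chv q.2 = wt b := by
      intro q hq
      rw [mem_filter, mem_product] at hq
      exact weight (pr_mod hF1) (pr_mod hF2) (mem_vec hq.1.1) (mem_vec hq.1.2) hq.2.1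
    calc _ = ∑ q ∈ (vec N1 ×ˢ vec N2).filter (fun q => q.1 ⬝ᵥ q.2 = b ∧ Cq β1 β2 q),
          chv q.1 * chv q.2 := by
          refine sum_congr ?_ fun _ _ => rfl
          ext q
          have := Finset.ext_iff.mp e q
          simpa using this
      _ = _ := by
          rw [sum_congr rfl e2, sum_const, nsmul_eq_mul]
          ring
  -- the involution
  have hinv : ((vec N1 ×ˢ vec N2).filter fun q => q.1 ⬝ᵥ q.2 = b ∧ Cq β1 β2 q).card =
      ((vec N1 ×ˢ vec N2).filter fun q => q.1 ⬝ᵥ q.2 = b ∧ Cq (-β1) (-β2) q).card := by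
    have hmap : ∀ (a c : K) (q : V3 × V3), Cq a c q → Cq (-a) (-c) (-q.1, -q.2) := by
      rintro a c q ⟨n, hn, l1, l2⟩
      refine ⟨n, hn, ?_, ?_⟩
      · have : Ln n (-a) (-q.1) := by
          rw [ln_neg, neg_neg]
          exact l1
        exact this
      · have : Ln n (-c) (-q.2) := by
          rw [ln_neg, neg_neg]
          exact l2
        exact this
    refine card_bij' (fun q _ => (-q.1, -q.2)) (fun q _ => (-q.1, -q.2)) ?_ ?_ ?_ ?_
    · intro q hq
      rw [mem_filter, mem_product] at hq ⊢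
      refine ⟨⟨neg_vec hq.1.1, neg_vec hq.1.2⟩, ?_, hmap _ _ q hq.2.2⟩
      show -q.1 ⬝ᵥ -q.2 = b
      rw [_root_.neg_dotProduct, _root_.dotProduct_neg, neg_neg]
      exact hq.2.1
    · intro q hq
      rw [mem_filter, mem_product] at hq ⊢
      refine ⟨⟨neg_vec hq.1.1, neg_vec hq.1.2⟩, ?_, ?_⟩
      · show -q.1 ⬝ᵥ -q.2 = b
        rw [_root_.neg_dotProduct, _root_.dotProduct_neg, neg_neg]
        exact hq.2.1
      · have := hmap _ _ q hq.2.2
        rw [neg_neg, neg_neg] at this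
        exact this
    · intro q _
      simp
    · intro q _
      simp
  have hdot : ∀ q : V3 × V3, q.1 ⬝ᵥ q.2 = b →
      (q.1 0 : K) * q.2 0 + (q.1 1 : K) * q.2 1 + (q.1 2 : K) * q.2 2 = (b : K) := by
    intro q hq
    rw [← hq, dot3]
    push_cast
    ring
  by_cases hb : (b : ZMod 7) = -(β1 * β2)
  · rw [if_pos hb, hDD]
    have hcount : 2 * ((vec N1 ×ˢ vec N2).filter fun q => q.1 ⬝ᵥ q.2 = b ∧ Cq β1 β2 q).card =
        cp N1 b N2 + cp7 N1 b N2 β1 β2 := by
      have e1 : 2 * ((vec N1 ×ˢ vec N2).filter fun q => q.1 ⬝ᵥ q.2 = b ∧ Cq β1 β2 q).card =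
          ((vec N1 ×ˢ vec N2).filter fun q => q.1 ⬝ᵥ q.2 = b ∧ Cq β1 β2 q).card +
          ((vec N1 ×ˢ vec N2).filter fun q => q.1 ⬝ᵥ q.2 = b ∧ Cq (-β1) (-β2) q).card := by
        omega
      rw [e1]
      unfold cp cp7
      simp only [← filter_filter]
      rw [card_filter (fun q => Cq β1 β2 q), card_filter (fun q => Cq (-β1) (-β2) q),
        card_filter (fun q : V3 × V3 => ∀ i, β2 * (q.1 i : ZMod 7) = β1 * (q.2 i : ZMod 7)),
        ← sum_add_distrib, card_eq_sum_ones, ← sum_add_distrib]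
      refine sum_congr rfl fun q hq => ?_
      rw [mem_filter, mem_product] at hq
      have := count7 (v := fun i => (q.1 i : K)) (w := fun i => (q.2 i : K)) hb1 hb2
        (norm7 hF1 hq.1.1) (norm7 hF2 hq.1.2) ((hdot q hq.2).trans hb)
      convert this using 2
    have hcount' : (2:ℤ) * (((vec N1 ×ˢ vec N2).filter fun q => q.1 ⬝ᵥ q.2 = b ∧
        Cq β1 β2 q).card : ℤ) = (cp N1 b N2 : ℤ) + (cp7 N1 b N2 β1 β2 : ℤ) := by
      exact_mod_cast hcount
    rw [← hcount']
    ring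
  · rw [if_neg hb, hDD]
    have h0 : ((vec N1 ×ˢ vec N2).filter fun q => q.1 ⬝ᵥ q.2 = b ∧ Cq β1 β2 q) = ∅ := by
      rw [filter_eq_empty_iff]
      rintro q - ⟨hq, hC⟩
      apply hb
      rw [← hdot q hq]
      exact co_dot hb1 hC
    rw [h0]
    simp

end Pool.Agent.Z994
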